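import Mathlib
import Pool.Agent.H79.TD.Stm2

/-!
# EX: uniqueness of the exponents (UEX)
-/

set_option autoImplicit false

open MvPolynomial Module Pool.Agent.H77.TF

namespace Pool.Agent.H49.TD

/-- The homogeneous component of the product with a homogeneous polynomial (as in helper64's CFS). -/
theorem comp_mul' {K : Type} [Field K] {σ : Type} (f g : MvPolynomial σ K) {e n : ℕ}
    (hg : g.IsHomogeneous e) : homogeneousComponent n (f * g) =
      (if e ≤ n then homogeneousComponent (n - e) f else 0) * g := by
  conv_lhs => rw [← sum_homogeneousComponent f, Finset.sum_mul, map_sum]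
  have h1 : ∀ i, homogeneousComponent n (homogeneousComponent i f * g) =
      if n = i + e then homogeneousComponent i f * g else 0 := fun i =>
    homogeneousComponent_of_mem ((homogeneousComponent_isHomogeneous i f).mul hg)
  rw [Finset.sum_congr rfl fun i _ => h1 i]
  by_cases h : e ≤ n
  · rw [if_pos h]
    have h2 : ∀ i, (if n = i + e then homogeneousComponent i f * g else 0) =
        if i = n - e then homogeneousComponent (n - e) f * g else 0 := by
      intro i
      by_cases h3 : i = n - e
      · rw [if_pos h3, if_pos (by omega), h3]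
      · rw [if_neg h3, if_neg (by omega)]
    rw [Finset.sum_congr rfl fun i _ => h2 i, Finset.sum_ite_eq']
    by_cases h4 : n - e ∈ Finset.range (f.totalDegree + 1)
    · rw [if_pos h4]
    · rw [if_neg h4, homogeneousComponent_eq_zero, zero_mul]
      rw [Finset.mem_range] at h4
      omega
  · rw [if_neg h, zero_mul]
    refine Finset.sum_eq_zero fun i _ => ?_
    rw [if_neg (by omega)]

/-- A homogeneous logarithmic field of degree `d` is a combination of the members of the basis of degree at
most `d`. -/
theorem mem_low {K : Type} [Field K] {l : ℕ} {ν : Type} (A : ν → Fin l → K) (e : Fin l → ℕ)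
    (b : Basis (Fin l) (MvPolynomial (Fin l) K) (LD A))
    (hb : ∀ j i, ((b j : Fin l → MvPolynomial (Fin l) K) i).IsHomogeneous (e j)) (d : ℕ)
    (v : LD A) (hv : ∀ i, ((v : Fin l → MvPolynomial (Fin l) K) i).IsHomogeneous d) :
    v ∈ Submodule.span (MvPolynomial (Fin l) K)
      (Set.range fun j : {j // e j ≤ d} => (b j.1 : LD A)) := by
  classical
  have h1 : (v : Fin l → MvPolynomial (Fin l) K) = ∑ j, b.repr v j •
      (b j : Fin l → MvPolynomial (Fin l) K) := by
    have h2 := congrArg Subtype.val (b.sum_repr v)
    refine h2.symm.trans ?_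
    rw [Submodule.coe_sum]
    rfl
  have h4 : v = ∑ j, (if e j ≤ d then homogeneousComponent (d - e j) (b.repr v j) else 0) • b j := by
    apply Subtype.ext
    rw [Submodule.coe_sum]
    funext i
    have h2 := congrArg (homogeneousComponent d) (congrFun h1 i)
    have h3 : homogeneousComponent d ((v : Fin l → MvPolynomial (Fin l) K) i) =
        (v : Fin l → MvPolynomial (Fin l) K) i := by
      rw [homogeneousComponent_of_mem (n := d), if_pos rfl]
      exact hv i
    rw [h3, Finset.sum_apply, map_sum] at h2
    rw [h2, Finset.sum_apply]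
    refine Finset.sum_congr rfl fun j _ => ?_
    rw [Pi.smul_apply, smul_eq_mul]
    have h5 := comp_mul' (n := d) (b.repr v j) _ (hb j i)
    rw [h5]
    rfl
  rw [h4]
  refine Submodule.sum_mem _ fun j _ => ?_
  by_cases hj : e j ≤ d
  · exact Submodule.smul_mem _ _ (Submodule.subset_span ⟨⟨j, hj⟩, rfl⟩)
  · rw [if_neg hj, zero_smul]
    exact Submodule.zero_mem _

/-- The number of the exponents at most `d` does not depend on the basis. -/
theorem cnt_le {K : Type} [Field K] {l : ℕ} {ν : Type} (A : ν → Fin l → K) (e e' : Fin l → ℕ)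
    (h : HasExp A e) (h' : HasExp A e') (d : ℕ) :
    ∑ j, (if e j ≤ d then 1 else 0) ≤ ∑ j, if e' j ≤ d then 1 else 0 := by
  classical
  obtain ⟨b, hb⟩ := h
  obtain ⟨b', hb'⟩ := h'
  have h1 : LinearIndependent (MvPolynomial (Fin l) K) fun j : {j // e j ≤ d} => (b j.1 : LD A) :=
    b.linearIndependent.comp _ Subtype.val_injective
  have h2 : Set.range (fun j : {j // e j ≤ d} => (b j.1 : LD A)) ≤
      Submodule.span (MvPolynomial (Fin l) K)
        (Set.range fun j : {j // e' j ≤ d} => (b' j.1 : LD A)) := by
    rintro _ ⟨j, rfl⟩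
    have h3 := mem_low A e' b' hb' (e j.1) (b j.1) (hb j.1)
    refine Submodule.span_mono ?_ h3
    rintro _ ⟨k, rfl⟩
    exact ⟨⟨k.1, k.2.trans j.2⟩, rfl⟩
  have h3 := linearIndependent_le_span' _ h1 _ h2
  have h4 : Fintype.card {j // e j ≤ d} ≤ Fintype.card {j // e' j ≤ d} := by
    have h5 : Cardinal.mk {j // e j ≤ d} = (Fintype.card {j // e j ≤ d} : Cardinal) :=
      Cardinal.mk_fintype _
    rw [h5] at h3
    have h6 := Nat.cast_le.1 h3
    refine h6.trans ?_
    rw [← Set.toFinset_card]
    refine le_trans (Finset.card_le_card (t := Finset.univ.image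
      fun j : {j // e' j ≤ d} => (b' j.1 : LD A)) ?_) ?_
    · intro x hx
      rw [Set.mem_toFinset] at hx
      obtain ⟨j, rfl⟩ := hx
      exact Finset.mem_image_of_mem _ (Finset.mem_univ j)
    · exact Finset.card_image_le.trans (by simp)
  rw [Fintype.card_subtype, Fintype.card_subtype, Finset.card_filter, Finset.card_filter] at h4
  exact h4

theorem t_UEX : Pool.Agent.H79.TD.S_UEX := by
  intro K _ ν A a b a' b' hab hab' h h'
  have key : ∀ d : ℕ, (if 1 ≤ d then 1 else 0) + (if a ≤ d then 1 else 0) + (if b ≤ d then 1 else 0) =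
      (if 1 ≤ d then 1 else 0) + (if a' ≤ d then 1 else 0) + (if b' ≤ d then 1 else 0) := by
    intro d
    have h1 := cnt_le A _ _ h h' d
    have h2 := cnt_le A _ _ h' h d
    have h3 := le_antisymm h1 h2
    rw [Fin.sum_univ_three, Fin.sum_univ_three] at h3
    exact h3
  have ha : a = a' := by
    rcases lt_trichotomy a a' with hlt | heq | hgt
    · have h1 := key a
      rw [if_pos (le_refl a), if_neg (show ¬ a' ≤ a by omega), if_neg (show ¬ b' ≤ a by omega)] at h1
      split_ifs at h1 <;> omega
    · exact heq
    · have h1 := key a'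
      rw [if_pos (le_refl a'), if_neg (show ¬ a ≤ a' by omega), if_neg (show ¬ b ≤ a' by omega)] at h1
      split_ifs at h1 <;> omega
  refine ⟨ha, ?_⟩
  subst ha
  rcases lt_trichotomy b b' with hlt | heq | hgt
  · have h1 := key b
    rw [if_pos (le_refl b), if_neg (show ¬ b' ≤ b by omega)] at h1
    split_ifs at h1 <;> omega
  · exact heq
  · have h1 := key b'
    rw [if_pos (le_refl b'), if_neg (show ¬ b ≤ b' by omega)] at h1
    split_ifs at h1 <;> omega

end Pool.Agent.H49.TD
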