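import Mathlib
import Pool.Agent.H79.TD.Stm2

/-!
# EX: binary forms with a vanishing Jacobian (JAC)
-/

set_option autoImplicit false

namespace Pool.Agent.H49.TD

open Polynomial in
theorem uni_dvd {K : Type} [Field K] (e : ℕ) (he : ∀ k : ℕ, 0 < k → k ≤ e → (k : K) ≠ 0)
    (g : K[X]) (hg : g.natDegree ≤ e) (h : g ∣ derivative g) : ∃ c : K, g = C c := by
  by_cases h0 : g = 0
  · exact ⟨0, by simp [h0]⟩
  have hd : derivative g = 0 := by
    by_contra hne
    have h1 := Polynomial.natDegree_le_of_dvd h hne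
    have h2 : (derivative g).natDegree < g.natDegree := by
      apply Polynomial.natDegree_derivative_lt
      intro hz
      apply hne
      rw [Polynomial.eq_C_of_natDegree_eq_zero hz]
      simp
    omega
  refine ⟨g.coeff 0, ?_⟩
  apply Polynomial.eq_C_of_natDegree_eq_zero
  by_contra hz
  have h3 : (derivative g).coeff (g.natDegree - 1) = 0 := by rw [hd]; simp
  rw [Polynomial.coeff_derivative] at h3
  have h4 : g.natDegree - 1 + 1 = g.natDegree := by omega
  rw [h4] at h3
  have h5 : ((g.natDegree - 1 : ℕ) : K) + 1 = (g.natDegree : K) := by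
    have : ((g.natDegree - 1 + 1 : ℕ) : K) = (g.natDegree : K) := by rw [h4]
    rw [← this]; push_cast; ring
  rw [h5] at h3
  rcases mul_eq_zero.1 h3 with h6 | h6
  · exact h0 (Polynomial.leadingCoeff_eq_zero.1 h6)
  · exact he _ (by omega) hg h6

open Polynomial in
theorem uni_jac {K : Type} [Field K] (e : ℕ) (he : ∀ k : ℕ, 0 < k → k ≤ e → (k : K) ≠ 0)
    (f g : K[X]) (hf : f.natDegree ≤ e) (hg : g.natDegree ≤ e)
    (h : f * derivative g = g * derivative f) : ∃ (a b : K) (ψ : K[X]), f = C a * ψ ∧ g = C b * ψ ∧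
      ψ.natDegree ≤ e := by
  by_cases h0 : g = 0
  · exact ⟨1, 0, f, by simp, by simp [h0], hf⟩
  by_cases h0' : f = 0
  · exact ⟨0, 1, g, by simp [h0'], by simp, hg⟩
  classical
  obtain ⟨f1, hf1⟩ := EuclideanDomain.gcd_dvd_left f g
  obtain ⟨g1, hg1⟩ := EuclideanDomain.gcd_dvd_right f g
  set d := EuclideanDomain.gcd f g with hd
  have hd0 : d ≠ 0 := by
    intro hz; apply h0; rw [hg1, hz, zero_mul]
  have hcop : IsCoprime f1 g1 := by
    have h7 := EuclideanDomain.gcd_eq_gcd_ab f g
    rw [← hd] at h7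
    refine ⟨EuclideanDomain.gcdA f g, EuclideanDomain.gcdB f g, ?_⟩
    apply mul_left_cancel₀ hd0
    have h8 : d * (EuclideanDomain.gcdA f g * f1 + EuclideanDomain.gcdB f g * g1) =
        (d * f1) * EuclideanDomain.gcdA f g + (d * g1) * EuclideanDomain.gcdB f g := by ring
    rw [h8, ← hf1, ← hg1, mul_one]
    exact h7.symm
  have h9 : f1 * derivative g1 = g1 * derivative f1 := by
    have h10 : f * derivative g - g * derivative f = d * d * (f1 * derivative g1 - g1 * derivative f1) := by
      rw [hf1, hg1]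
      simp only [derivative_mul]
      ring
    rw [h, sub_self] at h10
    have h11 := h10.symm
    rcases mul_eq_zero.1 h11 with h12 | h12
    · exact absurd h12 (mul_ne_zero hd0 hd0)
    · exact sub_eq_zero.1 h12
  have hf10 : f1 ≠ 0 := by intro hz; apply h0'; rw [hf1, hz, mul_zero]
  have hg10 : g1 ≠ 0 := by intro hz; apply h0; rw [hg1, hz, mul_zero]
  have hdf : f1.natDegree ≤ e := by
    have : f.natDegree = d.natDegree + f1.natDegree := by
      conv_lhs => rw [hf1]
      exact Polynomial.natDegree_mul hd0 hf10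
    omega
  have hdg : g1.natDegree ≤ e := by
    have : g.natDegree = d.natDegree + g1.natDegree := by
      conv_lhs => rw [hg1]
      exact Polynomial.natDegree_mul hd0 hg10
    omega
  have hdd : d.natDegree ≤ e := by
    have : f.natDegree = d.natDegree + f1.natDegree := by
      conv_lhs => rw [hf1]
      exact Polynomial.natDegree_mul hd0 hf10
    omega
  obtain ⟨a, ha⟩ := uni_dvd e he f1 hdf
    (hcop.dvd_of_dvd_mul_left (by rw [← h9]; exact dvd_mul_right _ _))
  obtain ⟨b, hb⟩ := uni_dvd e he g1 hdg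
    (hcop.symm.dvd_of_dvd_mul_left (by rw [h9]; exact dvd_mul_right _ _))
  refine ⟨a, b, d, ?_, ?_, hdd⟩
  · rw [hf1, ha]; ring
  · rw [hg1, hb]; ring

open MvPolynomial

noncomputable section

/-- Dehomogenisation. -/
def deh (K : Type) [Field K] : MvPolynomial (Fin 2) K →ₐ[K] Polynomial K :=
  aeval ![Polynomial.X, 1]

/-- Homogenisation in degree `e`. -/
def hm (K : Type) [Field K] (e : ℕ) : Polynomial K →ₗ[K] MvPolynomial (Fin 2) K :=
  ∑ k ∈ Finset.range (e + 1), (LinearMap.toSpanSingleton K (MvPolynomial (Fin 2) K)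
    (X 0 ^ k * X 1 ^ (e - k))).comp (Polynomial.lcoeff K k)

theorem deh_monomial {K : Type} [Field K] (m : Fin 2 →₀ ℕ) (c : K) :
    deh K (monomial m c) = Polynomial.C c * Polynomial.X ^ (m 0) := by
  unfold deh
  rw [aeval_monomial]
  rw [Finsupp.prod_fintype _ _ (by intro i; simp)]
  simp [Fin.prod_univ_two]

theorem hm_mono {K : Type} [Field K] (e k : ℕ) (hk : k ≤ e) (c : K) :
    hm K e (Polynomial.C c * Polynomial.X ^ k) = C c * (X 0 ^ k * X 1 ^ (e - k)) := by
  unfold hm
  rw [LinearMap.sum_apply, Finset.sum_eq_single k]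
  · simp [MvPolynomial.smul_eq_C_mul]
  · intro j _ hj
    simp [Polynomial.coeff_X_pow, hj]
  · intro h; exact absurd (Finset.mem_range.2 (by omega)) h

theorem hm_C_mul {K : Type} [Field K] (e : ℕ) (c : K) (p : Polynomial K) :
    hm K e (Polynomial.C c * p) = C c * hm K e p := by
  rw [← Polynomial.smul_eq_C_mul, map_smul, MvPolynomial.smul_eq_C_mul]

theorem hm_hom {K : Type} [Field K] (e : ℕ) (p : Polynomial K) : (hm K e p).IsHomogeneous e := by
  unfold hm
  rw [LinearMap.sum_apply]
  apply MvPolynomial.IsHomogeneous.sum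
  intro k hk
  have hk' : k ≤ e := by have := Finset.mem_range.1 hk; omega
  simp only [LinearMap.comp_apply, LinearMap.toSpanSingleton_apply, MvPolynomial.smul_eq_C_mul]
  have h1 : ((X 0 : MvPolynomial (Fin 2) K) ^ k).IsHomogeneous k := by
    simpa using (isHomogeneous_X K (0 : Fin 2)).pow k
  have h2 : ((X 1 : MvPolynomial (Fin 2) K) ^ (e - k)).IsHomogeneous (e - k) := by
    simpa using (isHomogeneous_X K (1 : Fin 2)).pow (e - k)
  have h3 := (isHomogeneous_C (Fin 2) (Polynomial.lcoeff K k p)).mul (h1.mul h2)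
  have h4 : 0 + (k + (e - k)) = e := by omega
  rw [h4] at h3
  exact h3

theorem monomial_two {K : Type} [Field K] (m : Fin 2 →₀ ℕ) (c : K) :
    monomial m c = C c * (X 0 ^ (m 0) * X 1 ^ (m 1)) := by
  rw [monomial_eq, Finsupp.prod_fintype _ _ (by intro i; simp)]
  simp [Fin.prod_univ_two]

theorem deg_two {K : Type} [Field K] {e : ℕ} {f : MvPolynomial (Fin 2) K} (hf : f.IsHomogeneous e)
    {m : Fin 2 →₀ ℕ} (hm : m ∈ f.support) : m 0 + m 1 = e := by
  have h1 := hf (mem_support_iff.1 hm)
  have h2 : Finsupp.degree m = e := by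
    rw [← h1, Finsupp.degree_eq_weight_one]
    rfl
  rw [Finsupp.degree_eq_sum] at h2
  simpa [Fin.sum_univ_two] using h2

theorem hm_deh {K : Type} [Field K] {e : ℕ} {f : MvPolynomial (Fin 2) K} (hf : f.IsHomogeneous e) :
    hm K e (deh K f) = f := by
  conv_rhs => rw [f.as_sum]
  conv_lhs => rw [f.as_sum]
  rw [map_sum, map_sum]
  refine Finset.sum_congr rfl fun m hm' => ?_
  have h1 := deg_two hf hm'
  rw [deh_monomial, hm_mono e _ (by omega), monomial_two]
  have h2 : e - m 0 = m 1 := by omega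
  rw [h2]

theorem deh_deg {K : Type} [Field K] {e : ℕ} {f : MvPolynomial (Fin 2) K} (hf : f.IsHomogeneous e) :
    (deh K f).natDegree ≤ e := by
  rw [f.as_sum, map_sum]
  apply Polynomial.natDegree_sum_le_of_forall_le
  intro m hm'
  have h1 := deg_two hf hm'
  rw [deh_monomial]
  exact (Polynomial.natDegree_C_mul_X_pow_le _ _).trans (by omega)

theorem deh_pderiv {K : Type} [Field K] (f : MvPolynomial (Fin 2) K) :
    deh K (pderiv 0 f) = Polynomial.derivative (deh K f) := by
  induction f using MvPolynomial.induction_on with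
  | C a => simp [deh]
  | add p q hp hq => rw [map_add, map_add, hp, hq, map_add, map_add]
  | mul_X p i hp =>
    rw [pderiv_mul, map_add, map_mul, map_mul, hp, map_mul, Polynomial.derivative_mul]
    congr 2
    fin_cases i
    · simp [deh]
    · simp [deh, pderiv_X]

/-- A pair of binary forms of degree `e` with a vanishing Jacobian is a form times a constant vector. -/
theorem jac {K : Type} [Field K] (e : ℕ) (he : ∀ k : ℕ, 0 < k → k ≤ e → (k : K) ≠ 0)
    (v w : MvPolynomial (Fin 2) K) (hv : v.IsHomogeneous e) (hw : w.IsHomogeneous e)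
    (hJ : pderiv 0 v * pderiv 1 w = pderiv 1 v * pderiv 0 w) :
    ∃ (ψ : MvPolynomial (Fin 2) K) (a b : K), ψ.IsHomogeneous e ∧ v = C a * ψ ∧ w = C b * ψ := by
  have hE : (e : MvPolynomial (Fin 2) K) * (v * pderiv 0 w) = (e : MvPolynomial (Fin 2) K) * (w * pderiv 0 v) := by
    have h1 := hv.sum_X_mul_pderiv
    have h2 := hw.sum_X_mul_pderiv
    rw [Fin.sum_univ_two, nsmul_eq_mul] at h1 h2
    have h3 : (e : MvPolynomial (Fin 2) K) * (v * pderiv 0 w) =
        (e : MvPolynomial (Fin 2) K) * v * pderiv 0 w := by ring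
    have h4 : (e : MvPolynomial (Fin 2) K) * (w * pderiv 0 v) =
        (e : MvPolynomial (Fin 2) K) * w * pderiv 0 v := by ring
    rw [h3, h4, ← h1, ← h2]
    linear_combination (-X 1) * hJ
  rcases Nat.eq_zero_or_pos e with h0 | hpos
  · subst h0
    have hv' : v = C (coeff 0 v) := by
      apply MvPolynomial.totalDegree_eq_zero_iff_eq_C.1
      have := hv.totalDegree_le
      omega
    have hw' : w = C (coeff 0 w) := by
      apply MvPolynomial.totalDegree_eq_zero_iff_eq_C.1
      have := hw.totalDegree_le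
      omega
    exact ⟨1, coeff 0 v, coeff 0 w, isHomogeneous_one _ _, by rw [mul_one]; exact hv',
      by rw [mul_one]; exact hw'⟩
  have he0 : (e : MvPolynomial (Fin 2) K) ≠ 0 := by
    intro hz
    apply he e hpos le_rfl
    have : (C (e : K) : MvPolynomial (Fin 2) K) = C 0 := by rw [map_natCast, C_0]; exact hz
    exact C_injective (Fin 2) K this
  have h5 := mul_left_cancel₀ he0 hE
  have h6 : deh K v * Polynomial.derivative (deh K w) = deh K w * Polynomial.derivative (deh K v) := by
    rw [← deh_pderiv, ← deh_pderiv, ← map_mul, ← map_mul, h5]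
  obtain ⟨a, b, ψ, h7, h8, -⟩ := uni_jac e he _ _ (deh_deg hv) (deh_deg hw) h6
  refine ⟨hm K e ψ, a, b, hm_hom e ψ, ?_, ?_⟩
  · rw [← hm_C_mul, ← h7, hm_deh hv]
  · rw [← hm_C_mul, ← h8, hm_deh hw]

theorem t_JAC : Pool.Agent.H79.TD.S_JAC := by
  intro K _ e v he hv hJ
  obtain ⟨ψ, a, b, -, h0, h1⟩ := jac e he (v 0) (v 1) (hv 0) (hv 1) hJ
  by_cases hab : a = 0 ∧ b = 0
  · refine ⟨![1, 0], ?_, ?_⟩
    · intro h
      have := congrFun h 0
      simp at this
    · unfold Pool.Agent.H77.TF.evl
      rw [Fin.sum_univ_two, h0, hab.1]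
      simp
  · refine ⟨![b, -a], ?_, ?_⟩
    · intro h
      have h2 := congrFun h 0
      have h3 := congrFun h 1
      simp at h2 h3
      exact hab ⟨h3, h2⟩
    · unfold Pool.Agent.H77.TF.evl
      rw [Fin.sum_univ_two, h0, h1]
      simp
      ring

end

end Pool.Agent.H49.TD
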