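import Mathlib
import Pool.Agent.H79.TD.Stm6
import Pool.Agent.H77.TF.Pri

/-!
# SV: nonclassical components of small degree are lines (NCL)
-/

set_option autoImplicit false
set_option linter.unusedSectionVars false

open MvPolynomial Module Pool.Agent.H77.TF Pool.Agent.H79.TD

namespace Pool.Agent.H49.TD.NC

variable {K : Type} [Field K] [Fintype K]

noncomputable def T : Derivation K (MvPolynomial (Fin 3) K) (MvPolynomial (Fin 3) K) :=
  mkDerivation K fun i => X i ^ Fintype.card K

theorem T_X (i : Fin 3) : T (X i : MvPolynomial (Fin 3) K) = X i ^ Fintype.card K := by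
  unfold T
  rw [mkDerivation_X]

theorem T_eq (f : MvPolynomial (Fin 3) K) : T f = TH f := by
  induction f using MvPolynomial.induction_on with
  | C a =>
    have : T (C a : MvPolynomial (Fin 3) K) = 0 := Derivation.map_algebraMap T a
    rw [this]
    simp [TH]
  | add p r hp hr =>
    rw [map_add, hp, hr]
    unfold TH
    rw [← Finset.sum_add_distrib]
    exact Finset.sum_congr rfl fun i _ => by rw [map_add, mul_add]
  | mul_X p j hp =>
    rw [Derivation.leibniz, hp, T_X]
    unfold TH
    have h1 : ∀ i, (X i : MvPolynomial (Fin 3) K) ^ Fintype.card K * pderiv i (p * X j) =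
        X j * (X i ^ Fintype.card K * pderiv i p) + p * (X i ^ Fintype.card K * pderiv i (X j)) := by
      intro i
      rw [pderiv_mul]
      ring
    rw [Finset.sum_congr rfl fun i _ => h1 i, Finset.sum_add_distrib, ← Finset.mul_sum,
      ← Finset.mul_sum, Finset.sum_eq_single (f := fun i => (X i : MvPolynomial (Fin 3) K) ^
        Fintype.card K * pderiv i (X j)) j]
    · rw [pderiv_X_self, mul_one, smul_eq_mul, smul_eq_mul, add_comm]
    · intro i _ hi
      rw [pderiv_X_of_ne (Ne.symm hi), mul_zero]
    · intro h
      exact absurd (Finset.mem_univ _) h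

theorem T_Xq (i : Fin 3) : T ((X i : MvPolynomial (Fin 3) K) ^ Fintype.card K) = 0 := by
  rw [Derivation.leibniz_pow]
  have : (Fintype.card K : MvPolynomial (Fin 3) K) = 0 := by
    have := FiniteField.cast_card_eq_zero K
    rw [← map_natCast (C : K →+* MvPolynomial (Fin 3) K), this, C_0]
  rw [← Nat.cast_smul_eq_nsmul (MvPolynomial (Fin 3) K), this, zero_smul]

/-- `f ↦ f (x + s x ^ q)`. -/
noncomputable def ph : MvPolynomial (Fin 3) K →ₐ[K] Polynomial (MvPolynomial (Fin 3) K) :=
  aeval fun i => Polynomial.C (X i) + Polynomial.X * Polynomial.C (X i ^ Fintype.card K)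

theorem ph_rec (f : MvPolynomial (Fin 3) K) (k : ℕ) :
    ((k + 1 : ℕ) : MvPolynomial (Fin 3) K) * (ph f).coeff (k + 1) = T ((ph f).coeff k) := by
  induction f using MvPolynomial.induction_on generalizing k with
  | C a =>
    have h1 : ph (C a : MvPolynomial (Fin 3) K) = Polynomial.C (C a) := by
      unfold ph
      rw [aeval_C]
      rfl
    rw [h1, Polynomial.coeff_C, Polynomial.coeff_C, if_neg (by omega), mul_zero]
    split_ifs
    · exact (Derivation.map_algebraMap T a).symm
    · exact (map_zero T).symm
  | add p r hp hr => rw [map_add, Polynomial.coeff_add, Polynomial.coeff_add, map_add, mul_add, hp, hr]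
  | mul_X p i hp =>
    have h1 : ph (p * X i) = ph p * Polynomial.C (X i) + ph p * Polynomial.X *
        Polynomial.C (X i ^ Fintype.card K) := by
      rw [map_mul]
      have : ph (X i : MvPolynomial (Fin 3) K) = Polynomial.C (X i) + Polynomial.X *
        Polynomial.C (X i ^ Fintype.card K) := by
        unfold ph
        rw [aeval_X]
      rw [this]
      ring
    rw [h1, Polynomial.coeff_add, Polynomial.coeff_add, Polynomial.coeff_mul_C, Polynomial.coeff_mul_C,
      Polynomial.coeff_mul_C, Polynomial.coeff_mul_C, Polynomial.coeff_mul_X, map_add,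
      Derivation.leibniz, T_X, Derivation.leibniz, T_Xq, smul_zero, zero_add, smul_eq_mul, smul_eq_mul,
      smul_eq_mul, ← hp k]
    rcases k with _ | k
    · rw [Polynomial.coeff_mul_X_zero, map_zero]
      push_cast
      ring
    · rw [Polynomial.coeff_mul_X, ← hp k]
      push_cast
      ring

theorem ph_zero (f : MvPolynomial (Fin 3) K) : (ph f).coeff 0 = f := by
  induction f using MvPolynomial.induction_on with
  | C a =>
    have h1 : ph (C a : MvPolynomial (Fin 3) K) = Polynomial.C (C a) := by
      unfold ph
      rw [aeval_C]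
      rfl
    rw [h1, Polynomial.coeff_C_zero]
  | add p r hp hr => rw [map_add, Polynomial.coeff_add, hp, hr]
  | mul_X p i hp =>
    have : ph (X i : MvPolynomial (Fin 3) K) = Polynomial.C (X i) + Polynomial.X *
        Polynomial.C (X i ^ Fintype.card K) := by
      unfold ph
      rw [aeval_X]
    rw [map_mul, this, Polynomial.mul_coeff_zero, hp]
    simp

theorem ph_deg {d : ℕ} {f : MvPolynomial (Fin 3) K} (hf : f.IsHomogeneous d) :
    (ph f).natDegree ≤ d := by
  rw [f.as_sum, map_sum]
  apply Polynomial.natDegree_sum_le_of_forall_le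
  intro m hm
  have h1 : (Finsupp.degree m) = d := by
    have h1 := hf (mem_support_iff.1 hm)
    rw [← h1, Finsupp.degree_eq_weight_one]
    rfl
  have h2 : ph (monomial m (coeff m f)) = Polynomial.C (C (coeff m f)) *
      ∏ i, (Polynomial.C (X i) + Polynomial.X * Polynomial.C (X i ^ Fintype.card K)) ^ m i := by
    unfold ph
    rw [aeval_monomial, Finsupp.prod_fintype _ _ (by intro i; simp)]
    rfl
  rw [h2]
  refine (Polynomial.natDegree_C_mul_le _ _).trans ?_
  refine (Polynomial.natDegree_prod_le _ _).trans ?_
  rw [← h1, Finsupp.degree_eq_sum]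
  refine Finset.sum_le_sum fun i _ => ?_
  refine (Polynomial.natDegree_pow_le_of_le (m i) (m := 1) ?_).trans (by omega)
  refine (Polynomial.natDegree_add_le _ _).trans (max_le (by simp) ?_)
  exact (Polynomial.natDegree_mul_C_le _ _).trans Polynomial.natDegree_X_le

theorem dvd_ph {d : ℕ} {G : MvPolynomial (Fin 3) K} (hG : G.IsHomogeneous d)
    (hk : ∀ k : ℕ, 0 < k → k ≤ d → (k : K) ≠ 0) (h : G ∣ T G) (k : ℕ) : G ∣ (ph G).coeff k := by
  rcases Nat.lt_or_ge d k with hd | hd
  · rw [Polynomial.coeff_eq_zero_of_natDegree_lt ((ph_deg hG).trans_lt hd)]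
    exact dvd_zero _
  · induction k with
    | zero => rw [ph_zero]
    | succ k ih =>
      obtain ⟨g, hg⟩ := ih (by omega)
      have h1 := ph_rec G k
      rw [hg, Derivation.leibniz] at h1
      have h2 : G ∣ ((k + 1 : ℕ) : MvPolynomial (Fin 3) K) * (ph G).coeff (k + 1) := by
        rw [h1]
        exact dvd_add (by simp) (by rw [smul_eq_mul]; exact h.mul_left _)
      have h3 : ((k + 1 : ℕ) : MvPolynomial (Fin 3) K) = C ((k + 1 : ℕ) : K) := by
        rw [map_natCast]
      rw [h3] at h2
      have hu : IsUnit (C ((k + 1 : ℕ) : K) : MvPolynomial (Fin 3) K) :=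
        (isUnit_iff_ne_zero.2 (hk (k + 1) (by omega) hd)).map C
      exact hu.dvd_mul_left.1 h2

theorem aeval_smul_hom {B : Type} [CommRing B] [Algebra K B] {d : ℕ} {f : MvPolynomial (Fin 3) K}
    (hf : f.IsHomogeneous d) (c : B) (y : Fin 3 → B) :
    aeval (fun i => c * y i) f = c ^ d * aeval y f := by
  rw [f.as_sum, map_sum, map_sum, Finset.mul_sum]
  refine Finset.sum_congr rfl fun m hm => ?_
  have h1 : (Finsupp.degree m) = d := by
    have h1 := hf (mem_support_iff.1 hm)
    rw [← h1, Finsupp.degree_eq_weight_one]
    rfl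
  rw [aeval_monomial, aeval_monomial, Finsupp.prod_fintype _ _ (by intro i; simp),
    Finsupp.prod_fintype _ _ (by intro i; simp)]
  simp only [mul_pow]
  rw [Finset.prod_mul_distrib, Finset.prod_pow_eq_pow_sum]
  rw [Finsupp.degree_eq_sum] at h1
  rw [h1]
  ring

/-- The divisibility along the line through a point and its Frobenius image. -/
theorem dvd_point' {B : Type} [CommRing B] [IsDomain B] [Algebra K B] (L : Type) [Field L]
    [Algebra B L] [Algebra K L] [IsScalarTower K B L] (hinj : Function.Injective (algebraMap B L)) {d : ℕ}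
    {G : MvPolynomial (Fin 3) K} (hG : G.IsHomogeneous d)
    (hk : ∀ k : ℕ, 0 < k → k ≤ d → (k : K) ≠ 0) (h : G ∣ T G) (y : Fin 3 → B) (l m : B) (hl : l ≠ 0) :
    aeval y G ∣ aeval (fun i => l * y i + m * y i ^ Fintype.card K) G := by
  choose g hg using dvd_ph hG hk h
  refine ⟨∑ k ∈ Finset.range (d + 1), l ^ (d - k) * m ^ k * aeval y (g k), ?_⟩
  apply hinj
  have hl' : algebraMap B L l ≠ 0 := by
    intro h0
    exact hl (hinj (by rw [h0, map_zero]))
  set s : L := algebraMap B L m / algebraMap B L l with hs
  -- the value at `y + s y ^ q`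
  have h1 : aeval (fun i => algebraMap B L (y i) + s * algebraMap B L (y i) ^ Fintype.card K) G =
      ∑ k ∈ Finset.range (d + 1), algebraMap B L (aeval y ((ph G).coeff k)) * s ^ k := by
    have h2 : aeval (fun i => algebraMap B L (y i) + s * algebraMap B L (y i) ^ Fintype.card K) G =
        Polynomial.eval₂ ((algebraMap B L).comp (aeval y : MvPolynomial (Fin 3) K →ₐ[K] B).toRingHom) s
          (ph G) := by
      have h3 : ∀ f : MvPolynomial (Fin 3) K,
          aeval (fun i => algebraMap B L (y i) + s * algebraMap B L (y i) ^ Fintype.card K) f =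
          Polynomial.eval₂ ((algebraMap B L).comp
            (aeval y : MvPolynomial (Fin 3) K →ₐ[K] B).toRingHom) s (ph f) := by
        intro f
        induction f using MvPolynomial.induction_on with
        | C a =>
          have h4 : ph (C a : MvPolynomial (Fin 3) K) = Polynomial.C (C a) := by
            unfold ph
            rw [aeval_C]
            rfl
          rw [h4, Polynomial.eval₂_C, aeval_C]
          show _ = algebraMap B L (aeval y (C a))
          rw [aeval_C, ← IsScalarTower.algebraMap_apply]
        | add p r hp hr => rw [map_add, map_add, hp, hr, Polynomial.eval₂_add]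
        | mul_X p i hp =>
          rw [map_mul, map_mul, hp, Polynomial.eval₂_mul, aeval_X]
          have h4 : ph (X i : MvPolynomial (Fin 3) K) = Polynomial.C (X i) + Polynomial.X *
              Polynomial.C (X i ^ Fintype.card K) := by
            unfold ph
            rw [aeval_X]
          rw [h4, Polynomial.eval₂_add, Polynomial.eval₂_C, Polynomial.eval₂_mul, Polynomial.eval₂_X,
            Polynomial.eval₂_C]
          congr 2
          · show _ = algebraMap B L (aeval y (X i))
            rw [aeval_X]
          · congr 1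
            show _ = algebraMap B L (aeval y (X i ^ Fintype.card K))
            rw [map_pow, aeval_X, map_pow]
      exact h3 G
    rw [h2, Polynomial.eval₂_eq_sum_range' _ (Nat.lt_succ_of_le (ph_deg hG))]
    rfl
  have h5 : algebraMap B L (aeval (fun i => l * y i + m * y i ^ Fintype.card K) G) =
      algebraMap B L l ^ d *
        aeval (fun i => algebraMap B L (y i) + s * algebraMap B L (y i) ^ Fintype.card K) G := by
    rw [← aeval_smul_hom hG]
    have h6 : ∀ f : MvPolynomial (Fin 3) K, ∀ z : Fin 3 → B,
        algebraMap B L (aeval z f) = aeval (fun i => algebraMap B L (z i)) f := by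
      intro f z
      induction f using MvPolynomial.induction_on with
      | C a => rw [aeval_C, aeval_C, ← IsScalarTower.algebraMap_apply]
      | add p r hp hr => rw [map_add, map_add, map_add, hp, hr]
      | mul_X p i hp => rw [map_mul, map_mul, map_mul, hp, aeval_X, aeval_X]
    rw [h6]
    congr 2
    funext i
    rw [map_add, map_mul, map_mul, map_pow, hs]
    field_simp
  rw [h5, h1, map_mul, map_sum, Finset.mul_sum, Finset.mul_sum]
  refine Finset.sum_congr rfl fun k hk' => ?_
  have hkd : k ≤ d := by
    have := Finset.mem_range.1 hk'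
    omega
  rw [hg k, map_mul, map_mul, map_mul, map_mul, map_pow, map_pow, hs, div_pow]
  have h7 : algebraMap B L l ^ d = algebraMap B L l ^ (d - k) * algebraMap B L l ^ k := by
    rw [← pow_add]
    congr 1
    omega
  rw [h7]
  field_simp

theorem dvd_point {B : Type} [CommRing B] [IsDomain B] [Algebra K B] {d : ℕ}
    {G : MvPolynomial (Fin 3) K} (hG : G.IsHomogeneous d)
    (hk : ∀ k : ℕ, 0 < k → k ≤ d → (k : K) ≠ 0) (h : G ∣ T G) (y : Fin 3 → B) (l m : B) (hl : l ≠ 0) :
    aeval y G ∣ aeval (fun i => l * y i + m * y i ^ Fintype.card K) G :=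
  dvd_point' (FractionRing B) (IsFractionRing.injective B _) hG hk h y l m hl

theorem prod_all : ∏ t : K, (Polynomial.X - Polynomial.C t : Polynomial K) =
    Polynomial.X ^ Fintype.card K - Polynomial.X := by
  have h1 := FiniteField.roots_X_pow_card_sub_X K
  have hmon : (Polynomial.X ^ Fintype.card K - Polynomial.X : Polynomial K).Monic :=
    Polynomial.monic_X_pow_sub (by rw [Polynomial.degree_X]; exact_mod_cast Fintype.one_lt_card)
  have hdeg := FiniteField.X_pow_card_sub_X_natDegree_eq K (Fintype.one_lt_card (α := K))
  have h2 := Polynomial.prod_multiset_X_sub_C_of_monic_of_roots_card_eq hmon (by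
    rw [h1, hdeg]
    rfl)
  rw [h1] at h2
  rw [← h2]
  rfl

/-- `a ^ q - a b ^ (q - 1)` is the product of the `a - t b`. -/
theorem prod_line' {B : Type} [CommRing B] [IsDomain B] [Algebra K B] (L : Type) [Field L]
    [Algebra B L] [Algebra K L] [IsScalarTower K B L] (hinj : Function.Injective (algebraMap B L))
    (a b : B) (hb : b ≠ 0) :
    ∏ t : K, (a - algebraMap K B t * b) = a ^ Fintype.card K - a * b ^ (Fintype.card K - 1) := by
  apply hinj
  have hb' : algebraMap B L b ≠ 0 := by
    intro h0
    exact hb (hinj (by rw [h0, map_zero]))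
  have h1 : (Polynomial.X ^ Fintype.card K - Polynomial.X : Polynomial K) =
      ∏ t : K, (Polynomial.X - Polynomial.C t) := prod_all.symm
  have h2 := congrArg (Polynomial.aeval (algebraMap B L a / algebraMap B L b)) h1
  rw [map_sub, map_pow, Polynomial.aeval_X, map_prod] at h2
  have hq : Fintype.card K = (Fintype.card K - 1) + 1 := by
    have := Fintype.card_pos (α := K)
    omega
  have h3 : ∏ t : K, (algebraMap B L a - algebraMap K L t * algebraMap B L b) =
      algebraMap B L b ^ Fintype.card K *
        ∏ t : K, Polynomial.aeval (algebraMap B L a / algebraMap B L b)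
          (Polynomial.X - Polynomial.C t) := by
    rw [← Finset.card_univ, ← Finset.prod_const, ← Finset.prod_mul_distrib]
    refine Finset.prod_congr rfl fun t _ => ?_
    rw [map_sub, Polynomial.aeval_X, Polynomial.aeval_C]
    field_simp
  rw [map_prod]
  have h4 : ∀ t : K, algebraMap B L (a - algebraMap K B t * b) =
      algebraMap B L a - algebraMap K L t * algebraMap B L b := by
    intro t
    rw [map_sub, map_mul, ← IsScalarTower.algebraMap_apply]
  rw [Finset.prod_congr rfl fun t _ => h4 t, h3, ← h2, map_sub, map_mul, map_pow, map_pow, div_pow]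
  rw [mul_sub, mul_div_cancel₀ _ (pow_ne_zero _ hb')]
  congr 1
  conv_lhs => rw [hq, pow_succ]
  field_simp

theorem prod_line {B : Type} [CommRing B] [IsDomain B] [Algebra K B] (a b : B) (hb : b ≠ 0) :
    ∏ t : K, (a - algebraMap K B t * b) = a ^ Fintype.card K - a * b ^ (Fintype.card K - 1) :=
  prod_line' (FractionRing B) (IsFractionRing.injective B _) a b hb

theorem exists_point {d : ℕ} {G : MvPolynomial (Fin 3) K} (hG : G.IsHomogeneous d)
    (hd : d < Fintype.card K) (hX : ¬ (X 0 : MvPolynomial (Fin 3) K) ∣ G) :
    ∃ c : Fin 3 → K, c 0 = 0 ∧ eval c G ≠ 0 := by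
  classical
  by_contra hno
  push Not at hno
  apply hX
  have h1 := divMonomial_add_modMonomial_single G 0
  set G' := G.modMonomial (Finsupp.single 0 1) with hG'
  have hm0 : ∀ m ∈ G'.support, m 0 = 0 := by
    intro m hm
    by_contra h0
    have h2 : coeff m G' = 0 := coeff_modMonomial_of_le G (by
      rw [Finsupp.single_le_iff]
      omega)
    exact (mem_support_iff.1 hm) h2
  have hev : ∀ v : Fin 3 → K, eval v G' = 0 := by
    intro v
    have h3 : eval v G' = eval (Function.update v 0 0) G' := by
      rw [eval_eq', eval_eq']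
      refine Finset.sum_congr rfl fun m hm => ?_
      rw [Fin.prod_univ_three, Fin.prod_univ_three, hm0 m hm]
      simp
    rw [h3]
    have h4 := hno (Function.update v 0 0) (by simp)
    rw [← h1, map_add, map_mul, eval_X] at h4
    simpa using h4
  have h5 : G' = 0 := by
    apply eq_zero_of_eval_eq_zero
    · exact hev
    · rw [mem_restrictDegree]
      intro m hm i
      have h6 : coeff m G ≠ 0 := by
        have h7 : ¬ Finsupp.single 0 1 ≤ m := by
          rw [Finsupp.single_le_iff, hm0 m hm]
          omega
        have h8 := mem_support_iff.1 hm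
        rwa [hG', coeff_modMonomial_of_not_le G h7] at h8
      have h9 := hG h6
      have h10 : Finsupp.degree m = d := by
        rw [← h9, Finsupp.degree_eq_weight_one]
        rfl
      have h11 := Finsupp.le_degree i m
      omega
  rw [h5, add_zero] at h1
  exact ⟨_, h1.symm⟩

theorem t_NCL : S_NCL := by
  classical
  intro K _ _ d G hirr hG hk hT
  rw [← T_eq] at hT
  have hprime : Prime G := hirr.prime
  by_cases hX : (X 0 : MvPolynomial (Fin 3) K) ∣ G
  · refine ⟨Pi.single 0 1, ?_, ?_⟩
    · intro h
      have := congrFun h 0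
      simp at this
    · have : lin (Pi.single 0 1 : Fin 3 → K) = X 0 := by
        unfold lin
        rw [Finset.sum_eq_single 0]
        · simp
        · intro i _ hi
          simp [hi]
        · intro h
          exact absurd (Finset.mem_univ _) h
      rw [this]
      exact hX
  · have hq0 := FiniteField.cast_card_eq_zero K
    have hd : d < Fintype.card K := by
      by_contra h
      exact hk _ Fintype.card_pos (not_lt.1 h) hq0
    have hq1 : 1 < Fintype.card K := Fintype.one_lt_card
    have hqs : Fintype.card K = (Fintype.card K - 1) + 1 := by omega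
    obtain ⟨c, hc0, hc⟩ := exists_point hG hd hX
    set q := Fintype.card K with hq
    set y : Fin 3 → MvPolynomial (Fin 3) K := fun i => X 0 ^ (q - 1) * X i + (-1) * X i ^ q with hy
    have hy0 : y 0 = 0 := by
      show X 0 ^ (q - 1) * X 0 + (-1) * X 0 ^ q = 0
      rw [← pow_succ, ← hqs]
      ring
    have h1 : G ∣ aeval y G := by
      have := dvd_point hG hk hT (X : Fin 3 → MvPolynomial (Fin 3) K) (X 0 ^ (q - 1)) (-1)
        (pow_ne_zero _ (X_ne_zero _))
      rwa [aeval_X_left, AlgHom.id_apply] at this
    have hcne : c 1 ≠ 0 ∨ c 2 ≠ 0 := by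
      by_contra h
      push Not at h
      have hcz : c = 0 := by
        funext i
        fin_cases i
        · exact hc0
        · exact h.1
        · exact h.2
      rw [hcz, eval_zero, constantCoeff_eq] at hc
      have h9 := hG hc
      have h10 : d = 0 := by
        rw [← h9]
        simp
      rw [h10] at hG
      have h11 := totalDegree_eq_zero_iff_eq_C.1 (Nat.le_zero.1 hG.totalDegree_le)
      apply hirr.not_isUnit
      rw [h11]
      exact (isUnit_iff_ne_zero.2 hc).map C
    set l' : MvPolynomial (Fin 3) K := C (c 1) * y 2 ^ q - C (c 2) * y 1 ^ q with hl'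
    set m' : MvPolynomial (Fin 3) K := C (c 2) * y 1 - C (c 1) * y 2 with hm'
    have hl0 : l' ≠ 0 := by
      intro h
      have e1 := congrArg (eval (Pi.single 1 1 : Fin 3 → K)) h
      have e2 := congrArg (eval (Pi.single 2 1 : Fin 3 → K)) h
      have hz : q ≠ 0 := by omega
      have hz1 : q - 1 ≠ 0 := by omega
      simp [hl', hy, hz, hz1, Pi.single_apply] at e1 e2
      rcases hcne with h3 | h3
      · exact h3 e2
      · exact h3 e1
    have h2 := dvd_point hG hk hT y l' m' hl0
    set D : MvPolynomial (Fin 3) K := y 1 * y 2 ^ q - y 2 * y 1 ^ q with hD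
    have h3 : (fun i => l' * y i + m' * y i ^ Fintype.card K) = fun i => D * C (c i) := by
      funext i
      fin_cases i
      · show l' * y 0 + m' * y 0 ^ q = D * C (c 0)
        rw [hy0, hc0, C_0, zero_pow (by omega)]
        ring
      · show l' * y 1 + m' * y 1 ^ q = D * C (c 1)
        rw [hl', hm', hD]
        ring
      · show l' * y 2 + m' * y 2 ^ q = D * C (c 2)
        rw [hl', hm', hD]
        ring
    rw [h3, aeval_smul_hom hG] at h2
    have h4 : aeval (fun i => (C (c i) : MvPolynomial (Fin 3) K)) G = C (eval c G) := by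
      have h5 : ∀ f : MvPolynomial (Fin 3) K,
          aeval (fun i => (C (c i) : MvPolynomial (Fin 3) K)) f = C (eval c f) := by
        intro f
        induction f using MvPolynomial.induction_on with
        | C a => rw [aeval_C, eval_C]; rfl
        | add p r hp hr => rw [map_add, map_add, map_add, hp, hr]
        | mul_X p i hp => rw [map_mul, map_mul, map_mul, hp, aeval_X, eval_X]
      exact h5 G
    rw [h4] at h2
    have h5 : G ∣ D := by
      have h6 := h1.trans h2
      have hu : IsUnit (C (eval c G) : MvPolynomial (Fin 3) K) := (isUnit_iff_ne_zero.2 hc).map C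
      exact hprime.dvd_of_dvd_pow (hu.dvd_mul_right.1 h6)
    -- lines through the second factorisation
    have key : ∀ u : MvPolynomial (Fin 3) K, G ∣ X 0 ^ (q - 1) * u - u ^ q →
        ∃ t : K, G ∣ u - C t * X 0 := by
      intro u hu
      have h6 := prod_line (K := K) u (X 0) (X_ne_zero _)
      have h7 : G ∣ ∏ t : K, (u - algebraMap K (MvPolynomial (Fin 3) K) t * X 0) := by
        rw [h6]
        have h8 : u ^ Fintype.card K - u * X 0 ^ (Fintype.card K - 1) =
            -(X 0 ^ (q - 1) * u - u ^ q) := by
          rw [← hq]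
          ring
        rw [h8]
        exact (dvd_neg).2 hu
      obtain ⟨t, -, ht⟩ := (hprime.dvd_finsetProd_iff _).1 h7
      exact ⟨t, ht⟩
    have fin : ∀ a : Fin 3 → K, a ≠ 0 → G ∣ lin a → ∃ a : Fin 3 → K, a ≠ 0 ∧ lin a ∣ G := by
      intro a ha h
      exact ⟨a, ha, (hirr.associated_of_dvd (pri K 3 a ha).1.irreducible h).symm.dvd⟩
    have hy2 : y 2 ≠ 0 := by
      intro h
      have e1 := congrArg (eval (Pi.single 2 1 : Fin 3 → K)) h
      have hz : q ≠ 0 := by omega
      have hz1 : q - 1 ≠ 0 := by omega
      simp [hy, hz, hz1, Pi.single_apply] at e1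
    have h6 := prod_line (K := K) (y 1) (y 2) hy2
    have h7 : D = -(y 2 * ∏ t : K, (y 1 - algebraMap K (MvPolynomial (Fin 3) K) t * y 2)) := by
      rw [h6, ← hq, hD]
      conv_lhs => rw [hqs, pow_succ (y 2)]
      rw [← hqs]
      ring
    rw [h7] at h5
    have h8 := (dvd_neg).1 h5
    rcases hprime.dvd_or_dvd h8 with h9 | h9
    · obtain ⟨t, ht⟩ := key (X 2) (by
        have : y 2 = X 0 ^ (q - 1) * X 2 - X 2 ^ q := by
          rw [hy]
          ring
        rwa [this] at h9)
      refine fin ![-t, 0, 1] ?_ ?_
      · intro h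
        have := congrFun h 2
        simp at this
      · have : lin ![-t, 0, 1] = X 2 - C t * X 0 := by
          unfold lin
          rw [Fin.sum_univ_three]
          simp
          ring
        rw [this]
        exact ht
    · obtain ⟨t, -, ht⟩ := (hprime.dvd_finsetProd_iff _).1 h9
      have hfr : (X 1 - C t * X 2 : MvPolynomial (Fin 3) K) ^ q = X 1 ^ q - C t * X 2 ^ q := by
        have h10 : ∀ u : MvPolynomial (Fin 3) K,
            FiniteField.frobeniusAlgHom K (MvPolynomial (Fin 3) K) u = u ^ q := fun u => rfl
        rw [← h10, ← h10, ← h10, map_sub, map_mul]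
        congr 2
        exact (FiniteField.frobeniusAlgHom K (MvPolynomial (Fin 3) K)).commutes t
      obtain ⟨t', ht'⟩ := key (X 1 - C t * X 2) (by
        have : y 1 - algebraMap K (MvPolynomial (Fin 3) K) t * y 2 =
            X 0 ^ (q - 1) * (X 1 - C t * X 2) - (X 1 - C t * X 2) ^ q := by
          rw [hfr, hy]
          show (X 0 ^ (q - 1) * X 1 + (-1) * X 1 ^ q) - C t * (X 0 ^ (q - 1) * X 2 + (-1) * X 2 ^ q) = _
          ring
        rwa [this] at ht)
      refine fin ![-t', 1, -t] ?_ ?_
      · intro h
        have := congrFun h 1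
        simp at this
      · have : lin ![-t', 1, -t] = X 1 - C t * X 2 - C t' * X 0 := by
          unfold lin
          rw [Fin.sum_univ_three]
          simp
          ring
        rw [this]
        exact ht'

end Pool.Agent.H49.TD.NC
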