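import Pool.Agent.H77.TF.Pri
import Pool.Agent.H77.TF.Moo
import Pool.Agent.H77.TF.Det
import Pool.Agent.H77.TF.Ful
import Pool.Agent.H22.TF.Mdt
import Pool.Agent.H27.TF.Sai
import Pool.Agent.H27.TF.Dd3
import Pool.Agent.H27.TD.Rep
import Pool.Agent.H39.TF.Stp
import Pool.Agent.H40.TF.Bij
import Pool.Agent.H40.TF.Lt2
import Pool.Agent.H6.TC.Mr3s
import Pool.Agent.H75.TF.Suf
import Pool.Agent.H83.TF.Du2
import Pool.Agent.H77.GR.Td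
import Pool.Agent.H6.TD.Mul
import Pool.Agent.H27.TD.Bin
import Pool.Agent.H39.TD.Ext
import Pool.Agent.H49.TD.Uex
import Pool.Agent.H49.TD.Jac
import Pool.Agent.H49.TD.Ncl
import Pool.Agent.H53.TD.RES
import Pool.Agent.H53.TD.RS2
import Pool.Agent.H53.TD.DIM
import Pool.Agent.H71.TD.Mlt
import Pool.Agent.H79.TD.Cr9
import Pool.Agent.H79.TD.Fin8
import Pool.Agent.H1.TD.Bi2
import Pool.Agent.H15.TD.CPT
import Pool.Agent.H40.TD.Bz2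
import Pool.Agent.H39.TD.Lnc
import Pool.Agent.H76.TD.Upt
import Pool.Agent.H85.TD.DCM

set_option autoImplicit false

open Pool.Agent.H77.TF Pool.Agent.H79.TD Pool.Agent.H77.GR

namespace Pool.Agent.H49.TD.A8

theorem dd3 : S_DD3 := Pool.Agent.H27.TF.dd3 pri det

theorem sai : S_SAI := Pool.Agent.H27.TF.sai pri det

theorem suf : S_SUF := Pool.Agent.H75.TF.suf pri Pool.Agent.H22.TF.mdt sai
  (Pool.Agent.H39.TF.stp (ful sai Pool.Agent.H22.TF.mdt))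

theorem ext : S_EXT := Pool.Agent.H39.TD.t_EXT Pool.Agent.H53.TD.t_RES
  (Pool.Agent.H27.TD.t_BIN Pool.Agent.H49.TD.t_JAC pri) pri

theorem cr8 : S_CR8 := cr8_of pri fin4 Pool.Agent.H6.TC.mr3 dd3 ext Pool.Agent.H83.TF.du2
  Pool.Agent.H27.TD.t_REP
  (Pool.Agent.H15.TD.t_CPT Pool.Agent.H49.TD.NC.t_NCL (Pool.Agent.H40.TD.t_BZ2 Pool.Agent.H53.TD.t_DIM))
  Pool.Agent.H85.TD.t_DCM
  (Pool.Agent.H39.TD.t_LNC Pool.Agent.H53.TD.t_RS2 (Pool.Agent.H1.TD.t_BI2 Pool.Agent.H49.TD.t_JAC pri))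
  Pool.Agent.H76.TD.t_UPT

theorem fin8 : S_FIN8 := fin8_of pri fin4 Pool.Agent.H6.TC.mr3 dd3 cr8 Pool.Agent.H6.TD.t_MUL
  Pool.Agent.H71.TD.t_MLT Pool.Agent.H49.TD.t_UEX Pool.Agent.H40.TF.lt2 Pool.Agent.H83.TF.du2 suf
  Pool.Agent.H40.TF.bij

end Pool.Agent.H49.TD.A8
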